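import Pool.Agent.TH57.Thr.Asm

set_option autoImplicit false
set_option linter.unusedSectionVars false

/-! Invertible matrices over integral group rings and their Gram matrices. -/

namespace TH652.GM

open Matrix TH57.Thr
open scoped Pointwise

variable {Γ : Type} [Group Γ] {κ : Type} [Fintype κ] [DecidableEq κ]

/-- the involution `∑ a_g g ↦ ∑ a_g g⁻¹` of the integral group ring -/
noncomputable def inv (x : MonoidAlgebra ℤ Γ) : MonoidAlgebra ℤ Γ :=
  MonoidAlgebra.ofCoeff (Finsupp.equivMapDomain (Equiv.inv Γ) x.coeff)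

/-- the adjoint matrix -/
noncomputable def adj (A : Matrix κ κ (MonoidAlgebra ℤ Γ)) : Matrix κ κ (MonoidAlgebra ℤ Γ) :=
  fun i j => inv (A j i)

theorem coeff_inv (x : MonoidAlgebra ℤ Γ) (g : Γ) : (inv x).coeff g = x.coeff g⁻¹ := by
  simp [inv, Finsupp.equivMapDomain_apply]

theorem inv_zero : inv (0 : MonoidAlgebra ℤ Γ) = 0 := by
  ext g; rw [coeff_inv]; rfl

theorem inv_add (x y : MonoidAlgebra ℤ Γ) : inv (x + y) = inv x + inv y := by
  ext g; rw [coeff_inv]; simp [coeff_inv]

theorem inv_inv (x : MonoidAlgebra ℤ Γ) : inv (inv x) = x := by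
  ext g; rw [coeff_inv, coeff_inv, _root_.inv_inv]

theorem inv_single (g : Γ) (z : ℤ) :
    inv (MonoidAlgebra.single g z) = MonoidAlgebra.single g⁻¹ z := by
  classical
  ext h
  rw [coeff_inv]
  simp only [MonoidAlgebra.coeff_single, Finsupp.single_apply]
  by_cases h1 : g = h⁻¹
  · subst h1; simp
  · rw [if_neg h1, if_neg]
    intro h2
    exact h1 (by rw [← h2, _root_.inv_inv])

theorem inv_one : inv (1 : MonoidAlgebra ℤ Γ) = 1 := by
  rw [MonoidAlgebra.one_def, inv_single, _root_.inv_one]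

theorem inv_sum {ι : Type} (s : Finset ι) (f : ι → MonoidAlgebra ℤ Γ) :
    inv (∑ i ∈ s, f i) = ∑ i ∈ s, inv (f i) := by
  classical
  induction s using Finset.induction_on with
  | empty => simp [inv_zero]
  | insert a s ha ih => rw [Finset.sum_insert ha, Finset.sum_insert ha, inv_add, ih]

theorem inv_mul (x y : MonoidAlgebra ℤ Γ) : inv (x * y) = inv y * inv x := by
  induction x using MonoidAlgebra.induction_linear with
  | zero => simp [inv_zero]
  | add x1 x2 h1 h2 => rw [add_mul, inv_add, h1, h2, inv_add, mul_add]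
  | single g z =>
    induction y using MonoidAlgebra.induction_linear with
    | zero => simp [inv_zero]
    | add y1 y2 h1 h2 => rw [mul_add, inv_add, h1, h2, inv_add, add_mul]
    | single h w =>
      rw [MonoidAlgebra.single_mul_single, inv_single, inv_single, inv_single,
        MonoidAlgebra.single_mul_single, _root_.mul_inv_rev, mul_comm z w]

theorem adj_mul (A B : Matrix κ κ (MonoidAlgebra ℤ Γ)) : adj (A * B) = adj B * adj A := by
  ext1 i j
  simp only [adj, Matrix.mul_apply, inv_sum, inv_mul]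

theorem adj_adj (A : Matrix κ κ (MonoidAlgebra ℤ Γ)) : adj (adj A) = A := by
  ext1 i j
  exact inv_inv _

theorem adj_one : adj (1 : Matrix κ κ (MonoidAlgebra ℤ Γ)) = 1 := by
  ext1 i j
  simp only [adj, Matrix.one_apply, eq_comm (a := j) (b := i)]
  split_ifs
  · exact inv_one
  · exact inv_zero

/-- support of products -/
theorem coeff_mul_ne {x y : MonoidAlgebra ℤ Γ} {g : Γ} (h : (x * y).coeff g ≠ 0) :
    ∃ a b, x.coeff a ≠ 0 ∧ y.coeff b ≠ 0 ∧ a * b = g := by
  classical
  have h1 := MonoidAlgebra.support_coeff_mul_subset x y (Finsupp.mem_support_iff.2 h)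
  obtain ⟨a, ha, b, hb, hab⟩ := Finset.mem_mul.1 h1
  exact ⟨a, b, Finsupp.mem_support_iff.1 ha, Finsupp.mem_support_iff.1 hb, hab⟩

theorem coeff_sum_ne {ι : Type} {s : Finset ι} {f : ι → MonoidAlgebra ℤ Γ} {g : Γ}
    (h : (∑ i ∈ s, f i).coeff g ≠ 0) : ∃ i ∈ s, (f i).coeff g ≠ 0 := by
  by_contra h1
  push Not at h1
  apply h
  rw [MonoidAlgebra.coeff_sum, Finsupp.finsetSum_apply]
  exact Finset.sum_eq_zero h1

/-- the pairing -/
noncomputable def ip (v w : κ → MonoidAlgebra ℤ Γ) : ℤ := (v ⬝ᵥ fun i => inv (w i)).coeff 1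

theorem coeff_mul_inv (x y : MonoidAlgebra ℤ Γ) (T : Finset Γ) (hT : x.coeff.support ⊆ T) :
    (x * inv y).coeff 1 = ∑ g ∈ T, x.coeff g * y.coeff g := by
  classical
  have h1 : ∀ x : MonoidAlgebra ℤ Γ, (x * inv y).coeff 1
      = x.coeff.sum fun g z => z * y.coeff g := by
    intro x
    induction x using MonoidAlgebra.induction_linear with
    | zero => simp
    | add x1 x2 h1 h2 =>
      rw [add_mul, MonoidAlgebra.coeff_add, Finsupp.add_apply, h1, h2, MonoidAlgebra.coeff_add,
        Finsupp.sum_add_index']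
      · intro a; ring
      · intro a b c; ring
    | single g z =>
      rw [MonoidAlgebra.coeff_single_mul_apply, coeff_inv, MonoidAlgebra.coeff_single,
        Finsupp.sum_single_index (by ring)]
      simp
  rw [h1, Finsupp.sum]
  exact Finset.sum_subset hT fun g _ hg => by rw [Finsupp.notMem_support_iff.1 hg]; ring

theorem ip_self_nonneg (v : κ → MonoidAlgebra ℤ Γ) : 0 ≤ ip v v := by
  unfold ip
  rw [dotProduct, MonoidAlgebra.coeff_sum, Finsupp.finsetSum_apply]
  refine Finset.sum_nonneg fun i _ => ?_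
  rw [coeff_mul_inv _ _ _ (subset_refl _)]
  exact Finset.sum_nonneg fun g _ => mul_self_nonneg _

theorem ip_self_eq_zero (v : κ → MonoidAlgebra ℤ Γ) (h : ip v v = 0) : v = 0 := by
  unfold ip at h
  rw [dotProduct, MonoidAlgebra.coeff_sum, Finsupp.finsetSum_apply,
    Finset.sum_eq_zero_iff_of_nonneg] at h
  · funext i
    have h1 := h i (Finset.mem_univ i)
    rw [coeff_mul_inv _ _ _ (subset_refl _), Finset.sum_eq_zero_iff_of_nonneg
      (fun g _ => mul_self_nonneg _)] at h1
    ext g
    by_contra h2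
    exact h2 (mul_self_eq_zero.1 (h1 g (Finsupp.mem_support_iff.2 h2)))
  · intro i _
    rw [coeff_mul_inv _ _ _ (subset_refl _)]
    exact Finset.sum_nonneg fun g _ => mul_self_nonneg _

theorem ip_add_left (u v w : κ → MonoidAlgebra ℤ Γ) : ip (u + v) w = ip u w + ip v w := by
  unfold ip
  rw [add_dotProduct, MonoidAlgebra.coeff_add, Finsupp.add_apply]

theorem ip_add_right (u v w : κ → MonoidAlgebra ℤ Γ) : ip u (v + w) = ip u v + ip u w := by
  unfold ip
  have h1 : (fun i => inv ((v + w) i)) = (fun i => inv (v i)) + fun i => inv (w i) := by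
    funext i; exact inv_add _ _
  rw [h1, dotProduct_add, MonoidAlgebra.coeff_add, Finsupp.add_apply]

/-- the pairing of combinations of rows -/
theorem ip_vecMul (x y : κ → MonoidAlgebra ℤ Γ) (A : Matrix κ κ (MonoidAlgebra ℤ Γ)) :
    ip (x ᵥ* A) (y ᵥ* A) = (∑ i, ∑ j, x i * ((A * adj A) i j * inv (y j))).coeff 1 := by
  unfold ip
  have h1 : (fun l => inv ((y ᵥ* A) l)) = adj A *ᵥ fun j => inv (y j) := by
    funext l
    simp only [Matrix.vecMul, Matrix.mulVec, dotProduct, inv_sum, inv_mul, adj]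
  rw [h1, ← Matrix.dotProduct_mulVec, Matrix.mulVec_mulVec]
  simp only [dotProduct, Matrix.mulVec, Finset.mul_sum]

end TH652.GM
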