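import Pool.Agent.TH652.GM.Main

set_option autoImplicit false
set_option linter.unusedSectionVars false

/-! Polynomials in a Gram matrix: if a nonconstant polynomial with nonnegative coefficients in the
Gram matrix is a block matrix then so is the Gram matrix. -/

namespace TH652.GM

open Matrix TH57.Thr

variable {Γ : Type} [Group Γ] {κ : Type} [Fintype κ] [DecidableEq κ] {β : Type}

/-- the trace -/
noncomputable def tr (M : Matrix κ κ (MonoidAlgebra ℤ Γ)) : ℤ := ∑ i, (M i i).coeff 1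

theorem tr_add (M N : Matrix κ κ (MonoidAlgebra ℤ Γ)) : tr (M + N) = tr M + tr N := by
  unfold tr
  rw [← Finset.sum_add_distrib]
  rfl

theorem tr_zero : tr (0 : Matrix κ κ (MonoidAlgebra ℤ Γ)) = 0 := by
  unfold tr
  exact Finset.sum_eq_zero fun i _ => rfl

theorem tr_sum {ι : Type} (s : Finset ι) (f : ι → Matrix κ κ (MonoidAlgebra ℤ Γ)) :
    tr (∑ i ∈ s, f i) = ∑ i ∈ s, tr (f i) := by
  classical
  induction s using Finset.induction_on with
  | empty => simp [tr_zero]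
  | insert a s ha ih => rw [Finset.sum_insert ha, Finset.sum_insert ha, tr_add, ih]

theorem coeff_mul_one_comm (x y : MonoidAlgebra ℤ Γ) : (x * y).coeff 1 = (y * x).coeff 1 := by
  classical
  induction x using MonoidAlgebra.induction_linear with
  | zero => simp
  | add x1 x2 h1 h2 =>
    rw [add_mul, mul_add, MonoidAlgebra.coeff_add, MonoidAlgebra.coeff_add, Finsupp.add_apply,
      Finsupp.add_apply, h1, h2]
  | single g z =>
    rw [MonoidAlgebra.coeff_single_mul_apply, MonoidAlgebra.coeff_mul_single_apply, mul_one,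
      one_mul, mul_comm]

theorem tr_mul_comm (M N : Matrix κ κ (MonoidAlgebra ℤ Γ)) : tr (M * N) = tr (N * M) := by
  unfold tr
  simp only [Matrix.mul_apply, MonoidAlgebra.coeff_sum, Finsupp.finsetSum_apply]
  rw [Finset.sum_comm]
  exact Finset.sum_congr rfl fun i _ => Finset.sum_congr rfl fun j _ => coeff_mul_one_comm _ _

theorem tr_self (M : Matrix κ κ (MonoidAlgebra ℤ Γ)) : tr (M * adj M) = ∑ i, ip (M i) (M i) := by
  unfold tr ip
  refine Finset.sum_congr rfl fun i _ => ?_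
  rw [Matrix.mul_apply]
  rfl

theorem tr_self_nonneg (M : Matrix κ κ (MonoidAlgebra ℤ Γ)) : 0 ≤ tr (M * adj M) := by
  rw [tr_self]
  exact Finset.sum_nonneg fun i _ => ip_self_nonneg _

theorem tr_self_eq_zero (M : Matrix κ κ (MonoidAlgebra ℤ Γ)) (h : tr (M * adj M) = 0) : M = 0 := by
  rw [tr_self] at h
  have h' := (Finset.sum_eq_zero_iff_of_nonneg (fun i _ => ip_self_nonneg (M i))).1 h
  funext i
  exact ip_self_eq_zero _ (h' i (Finset.mem_univ i))

theorem adj_add (A B : Matrix κ κ (MonoidAlgebra ℤ Γ)) : adj (A + B) = adj A + adj B := by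
  ext1 i j
  exact inv_add _ _

theorem adj_sub (A B : Matrix κ κ (MonoidAlgebra ℤ Γ)) : adj (A - B) = adj A - adj B := by
  have h := adj_add (A - B) B
  rw [sub_add_cancel] at h
  rw [h, add_sub_cancel_right]

section off

variable (s : κ → β) (C : β → Subgroup Γ) (d : κ → Γ)

/-- supported outside of the blocks -/
def Off (M : Matrix κ κ (MonoidAlgebra ℤ Γ)) : Prop :=
  ∀ i j g, (M i j).coeff g ≠ 0 → ¬ (s i = s j ∧ (d i)⁻¹ * g * d j ∈ C (s i))

theorem blk_zero : Blk s s C d d (0 : Matrix κ κ (MonoidAlgebra ℤ Γ)) :=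
  fun _ _ _ h => absurd rfl h

theorem off_zero : Off s C d (0 : Matrix κ κ (MonoidAlgebra ℤ Γ)) :=
  fun _ _ _ h => absurd rfl h

theorem blk_add (M N : Matrix κ κ (MonoidAlgebra ℤ Γ)) (hM : Blk s s C d d M)
    (hN : Blk s s C d d N) : Blk s s C d d (M + N) := by
  intro i j g h
  by_cases h1 : (M i j).coeff g = 0
  · apply hN i j g
    intro h2
    apply h
    change (M i j + N i j).coeff g = 0
    rw [MonoidAlgebra.coeff_add, Finsupp.add_apply, h1, h2, add_zero]
  · exact hM i j g h1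

theorem off_add (M N : Matrix κ κ (MonoidAlgebra ℤ Γ)) (hM : Off s C d M)
    (hN : Off s C d N) : Off s C d (M + N) := by
  intro i j g h
  by_cases h1 : (M i j).coeff g = 0
  · apply hN i j g
    intro h2
    apply h
    change (M i j + N i j).coeff g = 0
    rw [MonoidAlgebra.coeff_add, Finsupp.add_apply, h1, h2, add_zero]
  · exact hM i j g h1

theorem coeff_neg (x : MonoidAlgebra ℤ Γ) (g : Γ) : (-x).coeff g = - x.coeff g := by
  have h : (-x + x).coeff g = 0 := by rw [neg_add_cancel]; rfl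
  rw [MonoidAlgebra.coeff_add, Finsupp.add_apply] at h
  omega

theorem blk_neg (M : Matrix κ κ (MonoidAlgebra ℤ Γ)) (hM : Blk s s C d d M) :
    Blk s s C d d (-M) := by
  intro i j g h
  apply hM i j g
  intro h2
  apply h
  change (-(M i j)).coeff g = 0
  rw [coeff_neg, h2, neg_zero]

theorem off_neg (M : Matrix κ κ (MonoidAlgebra ℤ Γ)) (hM : Off s C d M) : Off s C d (-M) := by
  intro i j g h
  apply hM i j g
  intro h2
  apply h
  change (-(M i j)).coeff g = 0
  rw [coeff_neg, h2, neg_zero]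

theorem blk_sum {ι : Type} (F : Finset ι) (f : ι → Matrix κ κ (MonoidAlgebra ℤ Γ))
    (h : ∀ i ∈ F, Blk s s C d d (f i)) : Blk s s C d d (∑ i ∈ F, f i) := by
  classical
  induction F using Finset.induction_on with
  | empty => rw [Finset.sum_empty]; exact blk_zero s C d
  | insert a F ha ih =>
    rw [Finset.sum_insert ha]
    exact blk_add s C d _ _ (h a (Finset.mem_insert_self _ _))
      (ih fun i hi => h i (Finset.mem_insert_of_mem hi))

theorem off_sum {ι : Type} (F : Finset ι) (f : ι → Matrix κ κ (MonoidAlgebra ℤ Γ))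
    (h : ∀ i ∈ F, Off s C d (f i)) : Off s C d (∑ i ∈ F, f i) := by
  classical
  induction F using Finset.induction_on with
  | empty => rw [Finset.sum_empty]; exact off_zero s C d
  | insert a F ha ih =>
    rw [Finset.sum_insert ha]
    exact off_add s C d _ _ (h a (Finset.mem_insert_self _ _))
      (ih fun i hi => h i (Finset.mem_insert_of_mem hi))

theorem blk_one : Blk s s C d d (1 : Matrix κ κ (MonoidAlgebra ℤ Γ)) := by
  classical
  intro i j g h
  by_cases hij : i = j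
  · subst hij
    rw [Matrix.one_apply_eq, MonoidAlgebra.one_def] at h
    have hg : g = 1 := by
      by_contra hg
      apply h
      simp [Ne.symm hg]
    subst hg
    refine ⟨rfl, ?_⟩
    have : (d i)⁻¹ * 1 * d i = 1 := by group
    rw [this]; exact one_mem _
  · rw [Matrix.one_apply_ne hij] at h
    exact absurd rfl h

theorem blk_mul (M N : Matrix κ κ (MonoidAlgebra ℤ Γ)) (hM : Blk s s C d d M)
    (hN : Blk s s C d d N) : Blk s s C d d (M * N) := by
  intro i j g h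
  rw [Matrix.mul_apply] at h
  obtain ⟨k, _, h2⟩ := coeff_sum_ne h
  obtain ⟨a, b, ha, hb, hab⟩ := coeff_mul_ne h2
  have h3 := hM i k a ha
  have h4 := hN k j b hb
  refine ⟨h3.1.trans h4.1, ?_⟩
  have h5 : (d i)⁻¹ * g * d j = ((d i)⁻¹ * a * d k) * ((d k)⁻¹ * b * d j) := by
    rw [← hab]; group
  rw [h5]
  refine mul_mem h3.2 ?_
  rw [h3.1]
  exact h4.2

theorem blk_pow (M : Matrix κ κ (MonoidAlgebra ℤ Γ)) (hM : Blk s s C d d M) (k : ℕ) :
    Blk s s C d d (M ^ k) := by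
  induction k with
  | zero => rw [pow_zero]; exact blk_one s C d
  | succ k ih => rw [pow_succ]; exact blk_mul s C d _ _ ih hM

theorem blk_off_zero (M : Matrix κ κ (MonoidAlgebra ℤ Γ)) (h1 : Blk s s C d d M)
    (h2 : Off s C d M) : M = 0 := by
  ext1 i j
  ext g
  by_contra h
  exact h2 i j g h (h1 i j g h)

theorem blk_adj (M : Matrix κ κ (MonoidAlgebra ℤ Γ)) (hM : Blk s s C d d M) :
    Blk s s C d d (adj M) := by
  intro i j g h
  rw [adj, coeff_inv] at h
  have h1 := hM j i g⁻¹ h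
  refine ⟨h1.1.symm, ?_⟩
  have h2 : (d i)⁻¹ * g * d j = ((d j)⁻¹ * g⁻¹ * d i)⁻¹ := by group
  rw [h2, ← h1.1]
  exact inv_mem h1.2

theorem off_adj (M : Matrix κ κ (MonoidAlgebra ℤ Γ)) (hM : Off s C d M) :
    Off s C d (adj M) := by
  intro i j g h h3
  rw [adj, coeff_inv] at h
  refine hM j i g⁻¹ h ⟨h3.1.symm, ?_⟩
  have h2 : (d j)⁻¹ * g⁻¹ * d i = ((d i)⁻¹ * g * d j)⁻¹ := by group
  rw [h2, ← h3.1]
  exact inv_mem h3.2

theorem tr_off (M N : Matrix κ κ (MonoidAlgebra ℤ Γ)) (hM : Off s C d M)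
    (hN : Blk s s C d d N) : tr (M * N) = 0 := by
  unfold tr
  refine Finset.sum_eq_zero fun i _ => ?_
  by_contra h
  rw [Matrix.mul_apply] at h
  obtain ⟨k, _, h2⟩ := coeff_sum_ne h
  obtain ⟨a, b, ha, hb, hab⟩ := coeff_mul_ne h2
  have h4 := hN k i b hb
  have hb' : b = a⁻¹ := (eq_inv_of_mul_eq_one_right hab)
  refine hM i k a ha ⟨h4.1.symm, ?_⟩
  have h5 : (d i)⁻¹ * a * d k = ((d k)⁻¹ * b * d i)⁻¹ := by rw [hb']; group
  rw [h5, ← h4.1]
  exact inv_mem h4.2

/-- the relation of the blocks -/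
def rel : Setoid (κ × Γ) where
  r p q := s p.1 = s q.1 ∧ ((d p.1)⁻¹ * p.2) * ((d q.1)⁻¹ * q.2)⁻¹ ∈ C (s p.1)
  iseqv := by
    refine ⟨fun p => ⟨rfl, ?_⟩, fun {p q} h => ⟨h.1.symm, ?_⟩, fun {p q r} h1 h2 =>
      ⟨h1.1.trans h2.1, ?_⟩⟩
    · rw [mul_inv_cancel]; exact one_mem _
    · have h3 : ((d q.1)⁻¹ * q.2) * ((d p.1)⁻¹ * p.2)⁻¹
          = (((d p.1)⁻¹ * p.2) * ((d q.1)⁻¹ * q.2)⁻¹)⁻¹ := by group
      rw [h3, ← h.1]
      exact inv_mem h.2
    · have h3 : ((d p.1)⁻¹ * p.2) * ((d r.1)⁻¹ * r.2)⁻¹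
          = (((d p.1)⁻¹ * p.2) * ((d q.1)⁻¹ * q.2)⁻¹)
            * (((d q.1)⁻¹ * q.2) * ((d r.1)⁻¹ * r.2)⁻¹) := by group
      rw [h3]
      refine mul_mem h1.2 ?_
      rw [h1.1]
      exact h2.2

/-- part of a matrix in a class -/
noncomputable def part (c : Quotient (rel s C d)) (A : Matrix κ κ (MonoidAlgebra ℤ Γ)) :
    Matrix κ κ (MonoidAlgebra ℤ Γ) :=
  fun i l => cut (fun h => Quotient.mk (rel s C d) (i, h) = c) (A i l)

theorem part_mul_adj (A : Matrix κ κ (MonoidAlgebra ℤ Γ)) (c c' : Quotient (rel s C d))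
    (i j : κ) (g : Γ) (h : ((part s C d c A * adj (part s C d c' A)) i j).coeff g ≠ 0) :
    (s i = s j ∧ (d i)⁻¹ * g * d j ∈ C (s i)) ↔ c = c' := by
  rw [Matrix.mul_apply] at h
  obtain ⟨k, _, h2⟩ := coeff_sum_ne h
  obtain ⟨a, b, ha, hb, hab⟩ := coeff_mul_ne h2
  rw [adj, coeff_inv] at hb
  have h3 := ((coeff_cut _ _ _).1 ha).1
  have h4 := ((coeff_cut _ _ _).1 hb).1
  rw [← h3, ← h4, Quotient.eq]
  change _ ↔ (s i = s j ∧ ((d i)⁻¹ * a) * ((d j)⁻¹ * b⁻¹)⁻¹ ∈ C (s i))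
  have h5 : ((d i)⁻¹ * a) * ((d j)⁻¹ * b⁻¹)⁻¹ = (d i)⁻¹ * g * d j := by rw [← hab]; group
  rw [h5]

theorem sum_part (A : Matrix κ κ (MonoidAlgebra ℤ Γ)) :
    ∃ F : Finset (Quotient (rel s C d)), ∑ c ∈ F, part s C d c A = A := by
  classical
  let F : Finset (Quotient (rel s C d)) :=
    Finset.univ.biUnion fun p : κ × κ =>
      (A p.1 p.2).coeff.support.image fun h => Quotient.mk (rel s C d) (p.1, h)
  refine ⟨F, ?_⟩
  ext1 i l
  ext g
  rw [Matrix.sum_apply, MonoidAlgebra.coeff_sum, Finsupp.finsetSum_apply]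
  have h1 : ∀ c, ((part s C d c A) i l).coeff g
      = if Quotient.mk (rel s C d) (i, g) = c then (A i l).coeff g else 0 := by
    intro c
    simp only [part, cut, Finsupp.filter_apply]
    split_ifs <;> rfl
  simp only [h1]
  rw [Finset.sum_ite_eq]
  split_ifs with h2
  · rfl
  · by_contra h3
    apply h2
    refine Finset.mem_biUnion.2 ⟨(i, l), Finset.mem_univ _, Finset.mem_image.2 ⟨g, ?_, rfl⟩⟩
    exact Finsupp.mem_support_iff.2 (Ne.symm h3)

/-- positive with respect to the trace -/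
def Pos (N : Matrix κ κ (MonoidAlgebra ℤ Γ)) : Prop :=
  ∀ W : Matrix κ κ (MonoidAlgebra ℤ Γ), 0 ≤ tr (W * adj W * N)

theorem pos_gram (A : Matrix κ κ (MonoidAlgebra ℤ Γ)) : Pos (A * adj A) := by
  intro W
  have h1 : tr (W * adj W * (A * adj A)) = tr ((adj A * W) * adj (adj A * W)) := by
    rw [adj_mul, adj_adj, ← Matrix.mul_assoc, tr_mul_comm, ← Matrix.mul_assoc, ← Matrix.mul_assoc,
      ← Matrix.mul_assoc]
  rw [h1]
  exact tr_self_nonneg _

theorem pos_sum {ι : Type} (F : Finset ι) (f : ι → Matrix κ κ (MonoidAlgebra ℤ Γ))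
    (h : ∀ i ∈ F, Pos (f i)) : Pos (∑ i ∈ F, f i) := by
  intro W
  rw [Matrix.mul_sum, tr_sum]
  exact Finset.sum_nonneg fun i hi => h i hi W

/-- The splitting of a Gram matrix. -/
theorem exists_split (A : Matrix κ κ (MonoidAlgebra ℤ Γ)) :
    ∃ Q₀ : Matrix κ κ (MonoidAlgebra ℤ Γ), Blk s s C d d Q₀ ∧ Off s C d (A * adj A - Q₀) ∧
      adj Q₀ = Q₀ ∧ Pos Q₀ := by
  classical
  obtain ⟨F, hF⟩ := sum_part s C d A
  have hadjsum : ∀ (G : Finset (Quotient (rel s C d)))
      (f : Quotient (rel s C d) → Matrix κ κ (MonoidAlgebra ℤ Γ)),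
      adj (∑ c ∈ G, f c) = ∑ c ∈ G, adj (f c) := by
    intro G f
    induction G using Finset.induction_on with
    | empty =>
      rw [Finset.sum_empty, Finset.sum_empty]
      ext1 i j
      exact inv_zero
    | insert a G ha ih => rw [Finset.sum_insert ha, Finset.sum_insert ha, adj_add, ih]
  refine ⟨∑ c ∈ F, part s C d c A * adj (part s C d c A), ?_, ?_, ?_, ?_⟩
  · refine blk_sum s C d _ _ fun c _ i j g h => ?_
    exact (part_mul_adj s C d A c c i j g h).2 rfl
  · have h1 : A * adj A - ∑ c ∈ F, part s C d c A * adj (part s C d c A)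
        = ∑ c ∈ F, ∑ c' ∈ F.erase c, part s C d c A * adj (part s C d c' A) := by
      have h0 : A * adj A = (∑ c ∈ F, part s C d c A) * adj (∑ c ∈ F, part s C d c A) := by
        rw [hF]
      rw [h0, hadjsum, Finset.sum_mul_sum, sub_eq_iff_eq_add, ← Finset.sum_add_distrib]
      refine Finset.sum_congr rfl fun c hc => ?_
      rw [Finset.sum_erase_add _ _ hc]
    rw [h1]
    refine off_sum s C d _ _ fun c _ => off_sum s C d _ _ fun c' hc' i j g h h3 => ?_
    exact (Finset.ne_of_mem_erase hc') ((part_mul_adj s C d A c c' i j g h).1 h3).symm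
  · rw [hadjsum]
    refine Finset.sum_congr rfl fun c _ => ?_
    rw [adj_mul, adj_adj]
  · exact pos_sum _ _ fun c _ => pos_gram _

theorem pos_pow (Q₀ : Matrix κ κ (MonoidAlgebra ℤ Γ)) (h1 : adj Q₀ = Q₀) (h2 : Pos Q₀) (j : ℕ) :
    Pos (Q₀ ^ j) := by
  have hadj : ∀ k, adj (Q₀ ^ k) = Q₀ ^ k := fun k => by rw [adj_pow, h1]
  rcases Nat.even_or_odd' j with ⟨k, hk | hk⟩
  · have h3 : Q₀ ^ j = Q₀ ^ k * adj (Q₀ ^ k) := by rw [hadj, ← pow_add, hk]; congr 1; ring
    rw [h3]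
    exact pos_gram _
  · intro W
    have h3 : Q₀ ^ j = Q₀ ^ k * Q₀ * Q₀ ^ k := by
      rw [hk, ← pow_succ, ← pow_add]; congr 1; ring
    have h4 : tr (W * adj W * Q₀ ^ j) = tr ((Q₀ ^ k * W) * adj (Q₀ ^ k * W) * Q₀) := by
      rw [h3, adj_mul, hadj]
      have h5 : W * adj W * (Q₀ ^ k * Q₀ * Q₀ ^ k) = (W * adj W * Q₀ ^ k * Q₀) * Q₀ ^ k := by
        simp only [Matrix.mul_assoc]
      rw [h5, tr_mul_comm]
      simp only [Matrix.mul_assoc]
    rw [h4]
    exact h2 _

/-- powers of a Gram matrix of an invertible matrix are such Gram matrices -/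
theorem pow_gram (A : (Matrix κ κ (MonoidAlgebra ℤ Γ))ˣ) (k : ℕ) :
    ∃ B : (Matrix κ κ (MonoidAlgebra ℤ Γ))ˣ, (A.val * adj A.val) ^ k = B.val * adj B.val := by
  have hadj : ∀ k : ℕ, adj ((A.val * adj A.val) ^ k) = (A.val * adj A.val) ^ k := by
    intro k
    rw [adj_pow, adj_mul, adj_adj]
  have hu : ∀ k : ℕ, ((A * adu A) ^ k).val = (A.val * adj A.val) ^ k := by
    intro k
    rw [Units.val_pow_eq_pow_val, Units.val_mul]; rfl
  rcases Nat.even_or_odd' k with ⟨l, hl | hl⟩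
  · refine ⟨(A * adu A) ^ l, ?_⟩
    rw [hu, hadj, ← pow_add, hl]; congr 1; ring
  · refine ⟨(A * adu A) ^ l * A, ?_⟩
    rw [Units.val_mul, hu, adj_mul, hadj]
    have h1 : (A.val * adj A.val) ^ l * A.val * (adj A.val * (A.val * adj A.val) ^ l)
        = (A.val * adj A.val) ^ l * (A.val * adj A.val) * (A.val * adj A.val) ^ l := by
      simp only [Matrix.mul_assoc]
    rw [h1, ← pow_succ, ← pow_add, hl]; congr 1; ring

theorem pow_sub_pow' (X Y : Matrix κ κ (MonoidAlgebra ℤ Γ)) (k : ℕ) :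
    X ^ k - Y ^ k = ∑ i ∈ Finset.range k, X ^ i * (X - Y) * Y ^ (k - 1 - i) := by
  induction k with
  | zero => simp
  | succ k ih =>
    rw [Finset.sum_range_succ]
    have h1 : ∑ i ∈ Finset.range k, X ^ i * (X - Y) * Y ^ (k + 1 - 1 - i)
        = (∑ i ∈ Finset.range k, X ^ i * (X - Y) * Y ^ (k - 1 - i)) * Y := by
      rw [Finset.sum_mul]
      refine Finset.sum_congr rfl fun i hi => ?_
      have h2 := Finset.mem_range.1 hi
      rw [Matrix.mul_assoc _ _ Y, ← pow_succ]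
      congr 2
      omega
    rw [h1, ← ih]
    have h3 : k + 1 - 1 - k = 0 := by omega
    rw [h3, pow_zero, mul_one, pow_succ, pow_succ]
    noncomm_ring

/-- From a polynomial with nonnegative coefficients in the Gram matrix to the Gram matrix. -/
theorem blk_of_poly (A : (Matrix κ κ (MonoidAlgebra ℤ Γ))ˣ) (K : ℕ) (p : ℕ → ℕ)
    (hp : ∃ k, 0 < k ∧ k ≤ K ∧ p k ≠ 0)
    (h : Blk s s C d d (∑ k ∈ Finset.range (K + 1), p k • (A.val * adj A.val) ^ k)) :
    Blk s s C d d (A.val * adj A.val) := by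
  set Q := A.val * adj A.val with hQ
  obtain ⟨Q₀, h1, h2, h3, h4⟩ := exists_split s C d A.val
  rw [← hQ] at h2
  set D := Q - Q₀ with hD
  have hQadj : adj Q = Q := by rw [hQ, adj_mul, adj_adj]
  have hDadj : adj D = D := by rw [hD, adj_sub, hQadj, h3]
  -- the trace of `D * (p(Q) - p(Q₀))` vanishes
  have hnsmul : ∀ (a : ℕ) (M : Matrix κ κ (MonoidAlgebra ℤ Γ)), tr (a • M) = a * tr M := by
    intro a M
    induction a with
    | zero => rw [zero_smul, tr_zero]; simp
    | succ a ih => rw [succ_nsmul, tr_add, ih]; push_cast; ring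
  have hblkn : ∀ (a : ℕ) (M : Matrix κ κ (MonoidAlgebra ℤ Γ)), Blk s s C d d M →
      Blk s s C d d (a • M) := by
    intro a M hM
    induction a with
    | zero => rw [zero_smul]; exact blk_zero s C d
    | succ a ih => rw [succ_nsmul]; exact blk_add s C d _ _ ih hM
  have e1 : ∑ k ∈ Finset.range (K + 1), (p k : ℤ) * tr (D * Q ^ k) = 0 := by
    have := tr_off s C d D _ h2 h
    rw [Matrix.mul_sum, tr_sum] at this
    rw [← this]
    refine Finset.sum_congr rfl fun k _ => ?_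
    rw [mul_smul_comm, hnsmul]
  have e2 : ∀ k, tr (D * Q₀ ^ k) = 0 := fun k => tr_off s C d D _ h2 (blk_pow s C d _ h1 k)
  have e3 : ∀ k, tr (D * Q ^ k)
      = ∑ i ∈ Finset.range k, tr (D * Q ^ i * D * Q₀ ^ (k - 1 - i)) := by
    intro k
    have h5 : tr (D * Q ^ k) = tr (D * (Q ^ k - Q₀ ^ k)) := by
      have h6 : D * Q ^ k = D * (Q ^ k - Q₀ ^ k) + D * Q₀ ^ k := by noncomm_ring
      rw [h6, tr_add, e2, add_zero]
    rw [h5, pow_sub_pow', Matrix.mul_sum, tr_sum]
    refine Finset.sum_congr rfl fun i _ => ?_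
    rw [← hD]
    simp only [Matrix.mul_assoc]
  have e4 : ∀ i j, 0 ≤ tr (D * Q ^ i * D * Q₀ ^ j) := by
    intro i j
    obtain ⟨B, hB⟩ := pow_gram A i
    have h5 : D * Q ^ i * D = (D * B.val) * adj (D * B.val) := by
      rw [adj_mul, hDadj, hQ, hB]
      simp only [Matrix.mul_assoc]
    rw [h5]
    exact pos_pow Q₀ h3 h4 j _
  have e5 : ∀ k, 0 ≤ tr (D * Q ^ k) := fun k => by
    rw [e3]; exact Finset.sum_nonneg fun i _ => e4 _ _
  obtain ⟨k, hk0, hkK, hpk⟩ := hp
  have e6 : tr (D * Q ^ k) = 0 := by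
    have h5 := (Finset.sum_eq_zero_iff_of_nonneg (fun k _ =>
      mul_nonneg (Int.natCast_nonneg (p k)) (e5 k))).1 e1 k (Finset.mem_range.2 (by omega))
    rcases mul_eq_zero.1 h5 with h6 | h6
    · exact absurd (by exact_mod_cast h6) hpk
    · exact h6
  rw [e3] at e6
  have e7 := (Finset.sum_eq_zero_iff_of_nonneg (fun i _ => e4 _ _)).1 e6 (k - 1)
    (Finset.mem_range.2 (by omega))
  have h6 : k - 1 - (k - 1) = 0 := by omega
  rw [h6, pow_zero, mul_one] at e7
  obtain ⟨B, hB⟩ := pow_gram A (k - 1)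
  have h5 : D * Q ^ (k - 1) * D = (D * B.val) * adj (D * B.val) := by
    rw [adj_mul, hDadj, hQ, hB]
    simp only [Matrix.mul_assoc]
  rw [h5] at e7
  have h7 := tr_self_eq_zero _ e7
  have h8 : D = 0 := by
    have h9 : D * B.val * (B⁻¹).val = D := by rw [Matrix.mul_assoc, B.mul_inv, Matrix.mul_one]
    rw [← h9, h7, Matrix.zero_mul]
  have h9 : Q = Q₀ := sub_eq_zero.1 h8
  rw [h9]
  exact h1

end off

end TH652.GM
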