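import Pool.Agent.TH652.GM.Wh
import Pool.Agent.TH652.GM.Pow

set_option autoImplicit false
set_option linter.unusedSectionVars false

/-! The final theorem. -/

namespace TH652.GM

open Matrix TH57.Thr

variable {Γ : Type} [Group Γ] {κ : Type} [Fintype κ] [DecidableEq κ] {β : Type}

/-- `p(A A*)` for the polynomial `∑_{k ≤ K} p k X ^ k` -/
noncomputable def polyGram (A : Matrix κ κ (MonoidAlgebra ℤ Γ)) (K : ℕ) (p : ℕ → ℕ) :
    Matrix κ κ (MonoidAlgebra ℤ Γ) :=
  ∑ k ∈ Finset.range (K + 1), p k • (A * adj A) ^ k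

/-- `A` is a matrix over the subgroups `C b` up to a permutation and diagonal matrices of group
elements -/
def OverSubgroups (A : Matrix κ κ (MonoidAlgebra ℤ Γ)) (s : κ → β) (C : β → Subgroup Γ)
    (d : κ → Γ) : Prop :=
  ∃ (σ : Equiv.Perm κ) (x : κ → Γ), Blk s (fun j => s (σ j)) C d x A

/-- a nonconstant polynomial in the Gram matrix is a matrix over the subgroups `C b` -/
def GramOverSubgroups (A : Matrix κ κ (MonoidAlgebra ℤ Γ)) (s : κ → β) (C : β → Subgroup Γ)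
    (d : κ → Γ) : Prop :=
  ∃ (K : ℕ) (p : ℕ → ℕ), (∃ k, 0 < k ∧ k ≤ K ∧ p k ≠ 0) ∧ Blk s s C d d (polyGram A K p)

/-- torsion-free -/
def TorFree (Γ : Type) [Group Γ] : Prop := ∀ g : Γ, ∀ k : ℕ, 0 < k → g ^ k = 1 → g = 1

theorem over_iff (A : (Matrix κ κ (MonoidAlgebra ℤ Γ))ˣ) (s : κ → β) (C : β → Subgroup Γ)
    (d : κ → Γ) : GramOverSubgroups A.val s C d ↔ OverSubgroups A.val s C d := by
  constructor
  · rintro ⟨K, p, hp, h⟩
    have h1 := blk_of_poly s C d A K p hp h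
    obtain ⟨t, x, h2⟩ := structure_gram A s C d h1
    obtain ⟨σ, hσ⟩ := perm_labels A s t C d x h2
    refine ⟨σ, x, fun i j g hg => ?_⟩
    have h3 := h2 i j g hg
    exact ⟨h3.1.trans (hσ j), h3.2⟩
  · rintro ⟨σ, x, h⟩
    refine ⟨1, fun k => k, ⟨1, Nat.one_pos, le_rfl, one_ne_zero⟩, ?_⟩
    have h1 := gram_of_blk A.val s _ C d x h
    unfold polyGram
    rw [Finset.sum_range_succ, Finset.sum_range_one, zero_smul, zero_add, one_smul, pow_one]
    exact h1

theorem wh_of_over {n : ℕ} (A : (Matrix (Fin n) (Fin n) (MonoidAlgebra ℤ Γ))ˣ) (s : Fin n → β)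
    (C : β → Subgroup Γ) (d : Fin n → Γ) (h : OverSubgroups A.val s C d)
    (hC : (∀ b, WhVanishes (C b)) ∨ (TorFree Γ ∧ ∀ b, IsCyclic (C b))) : TrivialInWh A := by
  obtain ⟨σ, x, h1⟩ := h
  apply TT_frozen
  refine TT_of_blk A s _ C ?_ d x h1
  rcases hC with hC | ⟨htf, hC⟩
  · exact fun b => good_wh (C b) (hC b)
  · exact fun b => good_cyclic htf (C b) (hC b)

end TH652.GM
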