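import Pool.Agent.TH652.GM.Core

set_option autoImplicit false
set_option linter.unusedSectionVars false

/-! Structure of invertible matrices whose Gram matrix is a block matrix over subgroups. -/

namespace TH652.GM

open Matrix TH57.Thr
open scoped Pointwise

variable {Γ : Type} [Group Γ] {κ : Type} [Fintype κ] [DecidableEq κ] {β : Type}

/-- `M` is, up to the multiplication of its rows and columns by group elements, a block matrix
over the subgroups `C b`: the rows have the labels `s`, the columns the labels `t`. -/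
def Blk (s t : κ → β) (C : β → Subgroup Γ) (d x : κ → Γ)
    (M : Matrix κ κ (MonoidAlgebra ℤ Γ)) : Prop :=
  ∀ i j g, (M i j).coeff g ≠ 0 → s i = t j ∧ (d i)⁻¹ * g * x j ∈ C (s i)

/-- restriction of the support -/
noncomputable def cut (P : Γ → Prop) (x : MonoidAlgebra ℤ Γ) : MonoidAlgebra ℤ Γ := by
  classical exact MonoidAlgebra.ofCoeff (x.coeff.filter P)

theorem coeff_cut (P : Γ → Prop) (x : MonoidAlgebra ℤ Γ) (g : Γ) :
    (cut P x).coeff g ≠ 0 ↔ P g ∧ x.coeff g ≠ 0 := by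
  classical
  simp only [cut, Finsupp.filter_apply]
  by_cases h : P g <;> simp [h]

theorem cut_add (P : Γ → Prop) (x : MonoidAlgebra ℤ Γ) :
    cut P x + cut (fun g => ¬ P g) x = x := by
  classical
  ext g
  simp only [cut, MonoidAlgebra.coeff_add, Finsupp.add_apply, Finsupp.filter_apply]
  by_cases h : P g <;> simp [h]

/-- The rows of the inverse matrix are supported in one block. -/
theorem row_supp (A : (Matrix κ κ (MonoidAlgebra ℤ Γ))ˣ) (s : κ → β) (C : β → Subgroup Γ)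
    (d : κ → Γ) (hS : Blk s s C d d (A.val * adj A.val)) (k : κ) :
    ∃ (t : β) (x : Γ), ∀ i g, ((A⁻¹).val k i).coeff g ≠ 0 → s i = t ∧ x⁻¹ * (g * d i) ∈ C t := by
  classical
  set b : κ → MonoidAlgebra ℤ Γ := fun i => (A⁻¹).val k i with hb
  have hbA : b ᵥ* A.val = (1 : Matrix κ κ (MonoidAlgebra ℤ Γ)) k := by
    have h1 : (A⁻¹).val * A.val = 1 := A.inv_mul
    rw [← h1]
    funext l
    simp [Matrix.vecMul, Matrix.mul_apply, dotProduct, hb]
  have hinj : ∀ x : κ → MonoidAlgebra ℤ Γ, x ᵥ* A.val = 0 → x = 0 := by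
    intro x hx
    have h1 : (x ᵥ* A.val) ᵥ* (A⁻¹).val = x := by
      rw [Matrix.vecMul_vecMul, A.mul_inv, Matrix.vecMul_one]
    rw [← h1, hx, Matrix.zero_vecMul]
  -- a nonzero coefficient
  have hne : ∃ i g, (b i).coeff g ≠ 0 := by
    by_contra h
    push Not at h
    have h1 : b = 0 := by
      funext i; ext g; exact h i g
    rw [h1, Matrix.zero_vecMul] at hbA
    have h2 := congrFun hbA k
    rw [Matrix.one_apply_eq] at h2
    exact zero_ne_one h2
  obtain ⟨i0, g0, h0⟩ := hne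
  refine ⟨s i0, g0 * d i0, fun i g hg => ?_⟩
  let P : κ → Γ → Prop := fun i g => s i = s i0 ∧ (g0 * d i0)⁻¹ * (g * d i) ∈ C (s i0)
  change P i g
  let y : κ → MonoidAlgebra ℤ Γ := fun i => cut (P i) (b i)
  let z : κ → MonoidAlgebra ℤ Γ := fun i => cut (fun g => ¬ P i g) (b i)
  have hyz : y + z = b := by funext i; exact cut_add _ _
  -- orthogonality
  have horth : ∀ u v : κ → MonoidAlgebra ℤ Γ,
      (∀ i j g h, (u i).coeff g ≠ 0 → (v j).coeff h ≠ 0 → (P i g ↔ ¬ P j h)) →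
      ip (u ᵥ* A.val) (v ᵥ* A.val) = 0 := by
    intro u v huv
    rw [ip_vecMul]
    by_contra hcon
    obtain ⟨i, _, h1⟩ := coeff_sum_ne hcon
    obtain ⟨j, _, h2⟩ := coeff_sum_ne h1
    obtain ⟨a, c, ha, hc, hac⟩ := coeff_mul_ne h2
    obtain ⟨e, f, he, hf, hef⟩ := coeff_mul_ne hc
    rw [coeff_inv] at hf
    have h3 := hS i j e he
    have h4 := huv i j a f⁻¹ ha hf
    have h5 : a * e = f⁻¹ := by
      have : a * (e * f) = 1 := by rw [hef, hac]
      rw [eq_inv_iff_mul_eq_one, mul_assoc]; exact this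
    have h6 : P i a ↔ P j f⁻¹ := by
      simp only [P]
      have h7 : (g0 * d i0)⁻¹ * (f⁻¹ * d j)
          = ((g0 * d i0)⁻¹ * (a * d i)) * ((d i)⁻¹ * e * d j) := by
        rw [← h5]; group
      rw [h7, ← h3.1]
      constructor
      · rintro ⟨h8, h9⟩
        refine ⟨h8, mul_mem h9 ?_⟩
        rw [← h8]; exact h3.2
      · rintro ⟨h8, h9⟩
        refine ⟨h8, ?_⟩
        have h10 : (d i)⁻¹ * e * d j ∈ C (s i0) := by rw [← h8]; exact h3.2
        exact (Subgroup.mul_mem_cancel_right _ h10).1 h9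
    rw [h6] at h4
    exact iff_not_self h4
  have hy1 : ∀ i g, (y i).coeff g ≠ 0 → P i g := fun i g h => ((coeff_cut _ _ _).1 h).1
  have hz1 : ∀ i g, (z i).coeff g ≠ 0 → ¬ P i g := fun i g h => ((coeff_cut _ _ _).1 h).1
  have hsum : ip (y ᵥ* A.val) (y ᵥ* A.val) + ip (z ᵥ* A.val) (z ᵥ* A.val) = 1 := by
    have h1 : ip (b ᵥ* A.val) (b ᵥ* A.val) = 1 := by
      rw [hbA]
      unfold ip
      rw [dotProduct, Finset.sum_eq_single k]
      · rw [Matrix.one_apply_eq, inv_one, mul_one, MonoidAlgebra.one_def]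
        simp
      · intro l _ hl
        rw [Matrix.one_apply_ne (Ne.symm hl), zero_mul]
      · intro h; exact absurd (Finset.mem_univ k) h
    rw [← hyz, Matrix.add_vecMul, ip_add_left, ip_add_right, ip_add_right,
      horth y z (fun i j g h h1 h2 => ⟨fun _ => hz1 _ _ h2, fun _ => hy1 _ _ h1⟩),
      horth z y (fun i j g h h1 h2 => ⟨fun h3 => absurd h3 (hz1 _ _ h1),
        fun h3 => absurd (hy1 _ _ h2) h3⟩)] at h1
    linarith
  have hypos : 0 < ip (y ᵥ* A.val) (y ᵥ* A.val) := by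
    refine lt_of_le_of_ne (ip_self_nonneg _) fun h => ?_
    have h1 := hinj y (ip_self_eq_zero _ h.symm)
    have h2 : (y i0).coeff g0 ≠ 0 := by
      refine (coeff_cut _ _ _).2 ⟨⟨rfl, ?_⟩, h0⟩
      rw [inv_mul_cancel]; exact one_mem _
    rw [h1] at h2
    exact h2 rfl
  have hz0 : z = 0 := by
    apply hinj
    apply ip_self_eq_zero
    have := ip_self_nonneg (z ᵥ* A.val)
    omega
  by_contra hcon
  have h1 : (z i).coeff g ≠ 0 := (coeff_cut _ _ _).2 ⟨hcon, hg⟩
  rw [hz0] at h1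
  exact h1 rfl

/-- Structure theorem. -/
theorem structure_gram (A : (Matrix κ κ (MonoidAlgebra ℤ Γ))ˣ) (s : κ → β) (C : β → Subgroup Γ)
    (d : κ → Γ) (hS : Blk s s C d d (A.val * adj A.val)) :
    ∃ (t : κ → β) (x : κ → Γ), Blk s t C d x A.val := by
  choose t x h using row_supp A s C d hS
  refine ⟨t, x, fun i k g hg => ?_⟩
  have h1 : A.val = A.val * adj A.val * adj (A⁻¹).val := by
    rw [Matrix.mul_assoc, ← adj_mul, A.inv_mul, adj_one, Matrix.mul_one]
  rw [h1, Matrix.mul_apply] at hg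
  obtain ⟨j, _, h2⟩ := coeff_sum_ne hg
  obtain ⟨a, b, ha, hb, hab⟩ := coeff_mul_ne h2
  rw [adj, coeff_inv] at hb
  have h3 := hS i j a ha
  have h4 := h k j b⁻¹ hb
  refine ⟨h3.1.trans h4.1, ?_⟩
  have h5 : (d i)⁻¹ * g * x k = ((d i)⁻¹ * a * d j) * ((x k)⁻¹ * (b⁻¹ * d j))⁻¹ := by
    rw [← hab]; group
  rw [h5]
  refine mul_mem h3.2 (inv_mem ?_)
  rw [h3.1, h4.1]
  exact h4.2

/-- The converse. -/
theorem gram_of_blk (A : Matrix κ κ (MonoidAlgebra ℤ Γ)) (s t : κ → β) (C : β → Subgroup Γ)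
    (d x : κ → Γ) (h : Blk s t C d x A) : Blk s s C d d (A * adj A) := by
  intro i j g hg
  rw [Matrix.mul_apply] at hg
  obtain ⟨k, _, h2⟩ := coeff_sum_ne hg
  obtain ⟨a, b, ha, hb, hab⟩ := coeff_mul_ne h2
  rw [adj, coeff_inv] at hb
  have h3 := h i k a ha
  have h4 := h j k b⁻¹ hb
  refine ⟨h3.1.trans h4.1.symm, ?_⟩
  have h5 : (d i)⁻¹ * g * d j = ((d i)⁻¹ * a * x k) * ((d j)⁻¹ * b⁻¹ * x k)⁻¹ := by
    rw [← hab]; group
  rw [h5]
  refine mul_mem h3.2 (inv_mem ?_)
  rw [h3.1, ← h4.1]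
  exact h4.2

theorem adj_pow (A : Matrix κ κ (MonoidAlgebra ℤ Γ)) (k : ℕ) : adj (A ^ k) = adj A ^ k := by
  induction k with
  | zero => rw [pow_zero, pow_zero, adj_one]
  | succ k ih => rw [pow_succ, adj_mul, ih, pow_succ']

/-- the diagonal of a Gram matrix of an invertible matrix -/
theorem diag_ne (A : (Matrix κ κ (MonoidAlgebra ℤ Γ))ˣ) (i : κ) :
    ((A.val * adj A.val) i i).coeff 1 ≠ 0 := by
  have h1 : ip (A.val i) (A.val i) = ((A.val * adj A.val) i i).coeff 1 := by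
    unfold ip
    rw [Matrix.mul_apply]
    rfl
  rw [← h1]
  intro h
  have h2 := ip_self_eq_zero _ h
  have h3 : (A.val * (A⁻¹).val) i i = 1 := by rw [A.mul_inv, Matrix.one_apply_eq]
  rw [Matrix.mul_apply] at h3
  have h4 : ∀ j, A.val i j = 0 := fun j => congrFun h2 j
  rw [Finset.sum_eq_zero (fun j _ => by rw [h4, zero_mul])] at h3
  exact zero_ne_one h3

/-- `A` as a unit, adjoint -/
noncomputable def adu (A : (Matrix κ κ (MonoidAlgebra ℤ Γ))ˣ) :
    (Matrix κ κ (MonoidAlgebra ℤ Γ))ˣ where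
  val := adj A.val
  inv := adj (A⁻¹).val
  val_inv := by rw [← adj_mul, A.inv_mul, adj_one]
  inv_val := by rw [← adj_mul, A.mul_inv, adj_one]

/-- From the square of a self-adjoint matrix with positive diagonal to the matrix. -/
theorem blk_sqrt (S : (Matrix κ κ (MonoidAlgebra ℤ Γ))ˣ) (hS : adj S.val = S.val)
    (hd : ∀ i, (S.val i i).coeff 1 ≠ 0) (s : κ → β) (C : β → Subgroup Γ) (d : κ → Γ)
    (h : Blk s s C d d (S.val * S.val)) : Blk s s C d d S.val := by
  have h1 : Blk s s C d d (S.val * adj S.val) := by rw [hS]; exact h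
  obtain ⟨t, x, h2⟩ := structure_gram S s C d h1
  intro i j g hg
  have h3 := h2 i j g hg
  have h4 := h2 j j 1 (hd j)
  refine ⟨h3.1.trans h4.1.symm, ?_⟩
  have h5 : (d i)⁻¹ * g * d j = ((d i)⁻¹ * g * x j) * ((d j)⁻¹ * 1 * x j)⁻¹ := by group
  rw [h5]
  refine mul_mem h3.2 (inv_mem ?_)
  rw [h3.1, ← h4.1]
  exact h4.2

/-- Powers of the Gram matrix. -/
theorem blk_root (A : (Matrix κ κ (MonoidAlgebra ℤ Γ))ˣ) (s : κ → β) (C : β → Subgroup Γ)
    (d : κ → Γ) (m : ℕ) (h : Blk s s C d d ((A.val * adj A.val) ^ 2 ^ m)) :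
    Blk s s C d d (A.val * adj A.val) := by
  have hadj : ∀ k : ℕ, adj ((A.val * adj A.val) ^ k) = (A.val * adj A.val) ^ k := by
    intro k
    rw [adj_pow, adj_mul, adj_adj]
  induction m with
  | zero => rwa [pow_zero, pow_one] at h
  | succ m ih =>
    apply ih
    have h1 : (A.val * adj A.val) ^ 2 ^ (m + 1)
        = (A.val * adj A.val) ^ 2 ^ m * (A.val * adj A.val) ^ 2 ^ m := by
      rw [← pow_add]; congr 1; rw [pow_succ]; ring
    rw [h1] at h
    have h2 : ((A * adu A) ^ 2 ^ m).val = (A.val * adj A.val) ^ 2 ^ m := by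
      rw [Units.val_pow_eq_pow_val, Units.val_mul]; rfl
    rw [← h2] at h ⊢
    refine blk_sqrt _ (by rw [h2]; exact hadj _) ?_ s C d h
    intro i
    rcases m with _ | m
    · rw [pow_zero, pow_one]
      exact diag_ne A i
    · have h3 : ((A * adu A) ^ 2 ^ (m + 1)).val
          = ((A * adu A) ^ 2 ^ m).val * adj ((A * adu A) ^ 2 ^ m).val := by
        have h4 : ((A * adu A) ^ 2 ^ m).val = (A.val * adj A.val) ^ 2 ^ m := by
          rw [Units.val_pow_eq_pow_val, Units.val_mul]; rfl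
        rw [h2, h4, hadj, ← pow_add]
        congr 1; rw [pow_succ]; ring
      rw [h3]
      exact diag_ne _ i

end TH652.GM
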