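import Pool.Agent.TH652.GM.Main

set_option autoImplicit false
set_option linter.unusedSectionVars false
set_option linter.style.haveILetI false

/-! The class in the Whitehead group. -/

namespace TH652.GM

open Matrix TH57.Thr

/-- `A` is trivial in the Whitehead group (the conclusion of the frozen statement `S02245`). -/
def TrivialInWh {Γ : Type} [Group Γ] {n : ℕ}
    (A : (Matrix (Fin n) (Fin n) (MonoidAlgebra ℤ Γ))ˣ) : Prop :=
  ∃ (m : ℕ) (g : Γ) (ε : ℤˣ)
    (C : (Matrix (Fin n ⊕ Fin (m + 1)) (Fin n ⊕ Fin (m + 1)) (MonoidAlgebra ℤ Γ))ˣ),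
    C ∈ commutator (Matrix (Fin n ⊕ Fin (m + 1)) (Fin n ⊕ Fin (m + 1)) (MonoidAlgebra ℤ Γ))ˣ ∧
    Matrix.fromBlocks (↑A : Matrix (Fin n) (Fin n) (MonoidAlgebra ℤ Γ))
        (0 : Matrix (Fin n) (Fin (m + 1)) (MonoidAlgebra ℤ Γ))
        (0 : Matrix (Fin (m + 1)) (Fin n) (MonoidAlgebra ℤ Γ))
        (1 : Matrix (Fin (m + 1)) (Fin (m + 1)) (MonoidAlgebra ℤ Γ)) =
      Matrix.diagonal (fun i : Fin n ⊕ Fin (m + 1) =>
          if i = Sum.inr (0 : Fin (m + 1)) then
            (MonoidAlgebra.single g ((ε : ℤ)) : MonoidAlgebra ℤ Γ) else 1) *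
        (↑C : Matrix (Fin n ⊕ Fin (m + 1)) (Fin n ⊕ Fin (m + 1)) (MonoidAlgebra ℤ Γ))

/-- the Whitehead group vanishes -/
def WhVanishes (Γ : Type) [Group Γ] : Prop :=
  ∀ (n : ℕ) (A : (Matrix (Fin n) (Fin n) (MonoidAlgebra ℤ Γ))ˣ), TrivialInWh A

/-- the unit `±g` -/
noncomputable def su {Γ : Type} [Group Γ] (g : Γ) (ε : ℤˣ) : (MonoidAlgebra ℤ Γ)ˣ where
  val := MonoidAlgebra.single g (ε : ℤ)
  inv := MonoidAlgebra.single g⁻¹ ((ε⁻¹ : ℤˣ) : ℤ)
  val_inv := by
    rw [MonoidAlgebra.single_mul_single, mul_inv_cancel, MonoidAlgebra.one_def]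
    congr 1
    exact ε.mul_inv
  inv_val := by
    rw [MonoidAlgebra.single_mul_single, inv_mul_cancel, MonoidAlgebra.one_def]
    congr 1
    exact ε.inv_mul

theorem TT_of_trivial {Γ : Type} [Group Γ] {n : ℕ}
    (A : (Matrix (Fin n) (Fin n) (MonoidAlgebra ℤ Γ))ˣ) (h : TrivialInWh A) :
    TT (TU Γ) A := by
  obtain ⟨m, g, ε, C, hC, h1⟩ := h
  refine ⟨Fin (m + 1), inferInstance, inferInstance, ?_⟩
  have h2 : Units.map (stm (Fin (m + 1))) A
      = Units.map (dgm (Sum.inr (0 : Fin (m + 1)) : Fin n ⊕ Fin (m + 1))) (su g ε) * C := by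
    apply Units.ext
    rw [Units.val_mul]
    change Matrix.fromBlocks _ _ _ _ = _
    rw [h1]
    congr 1
    change _ = dgm (Sum.inr (0 : Fin (m + 1)) : Fin n ⊕ Fin (m + 1))
      (MonoidAlgebra.single g (ε : ℤ))
    rw [dgm_apply]
    congr 1
    funext i
    by_cases h : i = Sum.inr (0 : Fin (m + 1))
    · subst h; simp
    · rw [if_neg h, Function.update_of_ne h]; rfl
  rw [h2]
  refine mul_mem (dgm_mem_HH _ _ _ ⟨g, ε, rfl⟩) (commutator_le_HH _ hC)

variable {Γ : Type} [Group Γ]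

/-- all invertible matrices over the subring of `K` are stably trivial over `Γ` -/
def Good (K : Subgroup Γ) : Prop :=
  ∀ (κ : Type) [Fintype κ] [DecidableEq κ] (M : (Matrix κ κ (MonoidAlgebra ℤ Γ))ˣ),
    (∀ i j g, (M.val i j).coeff g ≠ 0 → g ∈ K) → TT (TU Γ) M

theorem good_cyclic (htf : ∀ g : Γ, ∀ k : ℕ, 0 < k → g ^ k = 1 → g = 1) (K : Subgroup Γ)
    (hK : IsCyclic K) : Good K :=
  fun _ _ _ M hM => TT_cyclic htf M K hK hM

theorem good_wh (K : Subgroup Γ) (hK : WhVanishes K) : Good K := by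
  intro κ _ _ M hM
  have hinj : Function.Injective K.subtype := K.subtype_injective
  obtain ⟨P, Q, hPQ, hP⟩ := lift_unit K.subtype hinj M (fun i j g h => ⟨⟨g, hM i j g h⟩, rfl⟩)
  have hmp : Function.Injective (mpm (κ := κ) (MonoidAlgebra.mapDomainRingHom ℤ K.subtype)) := by
    intro X Y h
    ext1 i j
    have h1 := congrFun (congrFun h i) j
    exact MonoidAlgebra.mapDomain_injective hinj h1
  have h1 : mpm (MonoidAlgebra.mapDomainRingHom ℤ K.subtype) Q = (M⁻¹).val := by
    have h2 := congrArg (mpm (κ := κ) (MonoidAlgebra.mapDomainRingHom ℤ K.subtype)) hPQ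
    rw [map_mul, map_one, hP] at h2
    have h3 := congrArg (fun X => (M⁻¹).val * X) h2
    simp only [← mul_assoc, M.inv_mul, one_mul, mul_one] at h3
    exact h3
  have hQP : Q * P = 1 := by
    apply hmp
    rw [map_mul, map_one, h1, hP, M.inv_mul]
  let N : (Matrix κ κ (MonoidAlgebra ℤ K))ˣ := ⟨P, Q, hPQ, hQP⟩
  let e : Fin (Fintype.card κ) ≃ κ := (Fintype.equivFin κ).symm
  have h4 := TT_of_trivial _ (hK _ (Units.map (re e) N))
  have h5 := TT_re _ e.symm _ h4
  have h6 : Units.map (re e.symm) (Units.map (re e) N) = N := by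
    apply Units.ext
    ext1 i j
    change P (e (e.symm i)) (e (e.symm j)) = P i j
    rw [Equiv.apply_symm_apply, Equiv.apply_symm_apply]
  rw [h6] at h5
  have h7 : M = Units.map (mpm (MonoidAlgebra.mapDomainRingHom ℤ K.subtype)) N :=
    Units.ext hP.symm
  rw [h7]
  refine TT_map (TU K) (TU Γ) (MonoidAlgebra.mapDomainRingHom ℤ K.subtype) ?_ _ h5
  rintro u ⟨g, ε, hu⟩
  refine ⟨K.subtype g, ε, ?_⟩
  change MonoidAlgebra.mapDomain K.subtype (u : MonoidAlgebra ℤ K) = _
  rw [hu, MonoidAlgebra.mapDomain_single]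

theorem good_blocks : ∀ (N : ℕ) (κ : Type) [Fintype κ] [DecidableEq κ], Fintype.card κ ≤ N →
    ∀ (β : Type) (s : κ → β) (C : β → Subgroup Γ) (_ : ∀ b, Good (C b))
      (M : (Matrix κ κ (MonoidAlgebra ℤ Γ))ˣ)
      (_ : ∀ i j g, (M.val i j).coeff g ≠ 0 → s i = s j ∧ g ∈ C (s i)), TT (TU Γ) M := by
  classical
  intro N
  induction N with
  | zero =>
    intro κ _ _ hcard β s C hC M hM
    have : IsEmpty κ := Fintype.card_eq_zero_iff.1 (Nat.le_zero.1 hcard)
    have h1 : M = 1 := Units.ext (by ext i; exact isEmptyElim i)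
    rw [h1]
    exact TT_one _
  | succ N ih =>
    intro κ _ _ hcard β s C hC M hM
    rcases isEmpty_or_nonempty κ with he | ⟨⟨i₀⟩⟩
    · have h1 : M = 1 := Units.ext (by ext i; exact isEmptyElim i)
      rw [h1]
      exact TT_one _
    let e : {i // s i = s i₀} ⊕ {i // ¬ s i = s i₀} ≃ κ := Equiv.sumCompl _
    let M' := Units.map (re (R := MonoidAlgebra ℤ Γ) e) M
    have hz : ∀ i j, s i ≠ s j → M.val i j = 0 := by
      intro i j hij
      ext g
      by_contra h
      exact hij (hM i j g h).1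
    set X := M'.val.toBlocks₁₁ with hX
    set Z := M'.val.toBlocks₂₂ with hZ
    have hM'b : M'.val = fromBlocks X 0 0 Z := by
      rw [← Matrix.fromBlocks_toBlocks M'.val]
      congr 1
      · ext1 p q
        change M.val p.1 q.1 = 0
        exact hz _ _ (by rw [p.2]; exact fun h => q.2 h.symm)
      · ext1 p q
        change M.val p.1 q.1 = 0
        exact hz _ _ (by rw [q.2]; exact p.2)
    set Y := M'⁻¹.val with hY
    have h1 : M'.val * Y = 1 := M'.mul_inv
    have h2 : Y * M'.val = 1 := M'.inv_mul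
    rw [hM'b, ← Matrix.fromBlocks_toBlocks Y, Matrix.fromBlocks_multiply, ← Matrix.fromBlocks_one,
      Matrix.fromBlocks_inj] at h1 h2
    obtain ⟨a1, _, _, a4⟩ := h1
    obtain ⟨b1, _, _, b4⟩ := h2
    simp only [Matrix.zero_mul, Matrix.mul_zero, add_zero, zero_add] at a1 a4 b1 b4
    let x : (Matrix {i // s i = s i₀} {i // s i = s i₀} (MonoidAlgebra ℤ Γ))ˣ :=
      ⟨X, Y.toBlocks₁₁, a1, b1⟩
    let z : (Matrix {i // ¬ s i = s i₀} {i // ¬ s i = s i₀} (MonoidAlgebra ℤ Γ))ˣ :=
      ⟨Z, Y.toBlocks₂₂, a4, b4⟩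
    have hx : TT (TU Γ) x := by
      apply hC (s i₀)
      intro p q g hg
      have := (hM p.1 q.1 g hg).2
      rwa [p.2] at this
    have hz' : TT (TU Γ) z := by
      apply ih {i // ¬ s i = s i₀} ?_ β (fun p => s p.1) C hC z
      · intro p q g hg
        exact hM p.1 q.1 g hg
      · have h3 : Fintype.card {i // s i = s i₀} + Fintype.card {i // ¬ s i = s i₀}
            = Fintype.card κ := by
          rw [← Fintype.card_sum]; exact Fintype.card_congr e
        have h4 : 0 < Fintype.card {i // s i = s i₀} := Fintype.card_pos_iff.2 ⟨⟨i₀, rfl⟩⟩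
        omega
    have h5 : TT (TU Γ) M' := TT_tri (TU Γ) x z 0 M' hM'b hx hz'
    have h6 := TT_re (TU Γ) e.symm M' h5
    have h7 : M = Units.map (re e.symm) M' := by
      apply Units.ext
      ext1 i j
      change _ = M.val (e (e.symm i)) (e (e.symm j))
      rw [Equiv.apply_symm_apply, Equiv.apply_symm_apply]
    rw [h7]
    exact h6

/-- diagonal matrices of group elements, for every group -/
theorem TT_diag {κ : Type} [Fintype κ] [DecidableEq κ] (a : κ → Γ) : TT (TU Γ) (dgu a) := by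
  classical
  suffices h : ∀ (F : Finset κ) (a : κ → Γ), (∀ i, i ∉ F → a i = 1) → TT (TU Γ) (dgu a) from
    h Finset.univ a (fun i hi => absurd (Finset.mem_univ i) hi)
  intro F
  induction F using Finset.induction_on with
  | empty =>
    intro a ha
    have h1 : dgu a = 1 := by
      apply Units.ext
      change Matrix.diagonal (fun i => MonoidAlgebra.single (a i) (1 : ℤ)) = 1
      rw [← Matrix.diagonal_one]
      congr 1
      funext i
      rw [ha i (Finset.notMem_empty i), MonoidAlgebra.one_def]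
    rw [h1]
    exact TT_one _
  | insert k F hk ih =>
    intro a ha
    have h1 : dgu a = Units.map (dgm k) (su (a k) 1) * dgu (Function.update a k 1) := by
      apply Units.ext
      rw [Units.val_mul]
      change Matrix.diagonal (fun i => MonoidAlgebra.single (a i) (1 : ℤ))
        = Matrix.diagonal (Function.update 1 k (MonoidAlgebra.single (a k) ((1 : ℤˣ) : ℤ)))
          * Matrix.diagonal (fun i => MonoidAlgebra.single (Function.update a k 1 i) (1 : ℤ))
      rw [Matrix.diagonal_mul_diagonal]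
      congr 1
      funext i
      by_cases h : i = k
      · subst h
        rw [Function.update_self, Function.update_self, MonoidAlgebra.single_mul_single]
        simp
      · rw [Function.update_of_ne h, Function.update_of_ne h, Pi.one_apply, one_mul]
    rw [h1]
    refine TT_mul _ _ _ (TT_of_mem _ _ (dgm_mem_HH _ _ _ ⟨a k, 1, rfl⟩)) (ih _ ?_)
    intro i hi
    by_cases h : i = k
    · subst h; rw [Function.update_self]
    · rw [Function.update_of_ne h]
      exact ha i (fun h2 => (Finset.mem_insert.1 h2).elim h hi)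

variable {κ : Type} [Fintype κ] [DecidableEq κ] {β : Type}

/-- the labels of the columns are a permutation of those of the rows -/
theorem perm_labels (A : (Matrix κ κ (MonoidAlgebra ℤ Γ))ˣ) (s t : κ → β)
    (C : β → Subgroup Γ) (d x : κ → Γ) (h : Blk s t C d x A.val) :
    ∃ σ : Equiv.Perm κ, ∀ i, t i = s (σ i) := by
  obtain ⟨σ, hσ⟩ := aug_perm A
  refine ⟨σ, fun i => ?_⟩
  by_contra h2
  apply hσ i
  ext g
  by_contra h3
  exact h2 (h (σ i) i g h3).1.symm

theorem TT_of_blk (A : (Matrix κ κ (MonoidAlgebra ℤ Γ))ˣ) (s t : κ → β)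
    (C : β → Subgroup Γ) (hC : ∀ b, Good (C b)) (d x : κ → Γ) (h : Blk s t C d x A.val) :
    TT (TU Γ) A := by
  obtain ⟨σ, hσ⟩ := perm_labels A s t C d x h
  let B : (Matrix κ κ (MonoidAlgebra ℤ Γ))ˣ := (dgu d)⁻¹ * A * dgu x
  have hB : ∀ i j, B.val i j
      = MonoidAlgebra.single (d i)⁻¹ 1 * A.val i j * MonoidAlgebra.single (x j) 1 := by
    intro i j
    change (Matrix.diagonal (fun i => MonoidAlgebra.single (d i)⁻¹ (1 : ℤ)) * A.val
      * Matrix.diagonal (fun j => MonoidAlgebra.single (x j) (1 : ℤ)) :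
        Matrix κ κ (MonoidAlgebra ℤ Γ)) i j = _
    rw [Matrix.mul_diagonal, Matrix.diagonal_mul]
  have hBc : ∀ i j g, (B.val i j).coeff g ≠ 0 → s i = t j ∧ g ∈ C (s i) := by
    intro i j g hg
    rw [hB, MonoidAlgebra.coeff_mul_single_apply, MonoidAlgebra.coeff_single_mul_apply, one_mul,
      mul_one, _root_.inv_inv] at hg
    have h1 := h i j _ hg
    refine ⟨h1.1, ?_⟩
    have h2 := h1.2
    have h3 : (d i)⁻¹ * (d i * (g * (x j)⁻¹)) * x j = g := by group
    rwa [h3] at h2
  have hP : TT (TU Γ) (pu (R := MonoidAlgebra ℤ Γ) σ) := by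
    have h1 : pu (R := MonoidAlgebra ℤ Γ) σ
        = Units.map (mpm (Int.castRingHom (MonoidAlgebra ℤ Γ))) (pu (R := ℤ) σ) := by
      apply Units.ext
      ext1 i j
      change (1 : Matrix κ κ (MonoidAlgebra ℤ Γ)) (σ i) j
        = (((1 : Matrix κ κ ℤ) (σ i) j : ℤ) : MonoidAlgebra ℤ Γ)
      rw [Matrix.one_apply, Matrix.one_apply]
      split_ifs <;> simp
    rw [h1]
    exact TT_im _
  have hPB : TT (TU Γ) (pu (R := MonoidAlgebra ℤ Γ) σ * B) := by
    apply good_blocks _ κ le_rfl _ t C hC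
    intro i j g hg
    have h1 : (pu (R := MonoidAlgebra ℤ Γ) σ * B).val i j = B.val (σ i) j := by
      change ((1 : Matrix κ κ (MonoidAlgebra ℤ Γ)).submatrix σ id * B.val) i j = _
      rw [← Matrix.submatrix_id_id B.val, ← Matrix.submatrix_mul _ _ σ id id
        Function.bijective_id, Matrix.one_mul, Matrix.submatrix_id_id]
      rfl
    rw [h1] at hg
    have h2 := hBc _ _ g hg
    rw [← hσ] at h2
    exact h2
  have hA2 : A = dgu d * ((pu (R := MonoidAlgebra ℤ Γ) σ)⁻¹
      * (pu (R := MonoidAlgebra ℤ Γ) σ * B)) * (dgu x)⁻¹ := by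
    simp only [B]; group
  rw [hA2]
  exact TT_mul _ _ _ (TT_mul _ _ _ (TT_diag _) (TT_mul _ _ _ (TT_inv _ _ hP) hPB))
    (TT_inv _ _ (TT_diag _))

end TH652.GM
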